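import Mathlib
import Pool.Agent.H.MP_311bfa_al.Main

set_option autoImplicit false

namespace Pool.Agent.Results.MP_311bfa_al.NoExtension

/-- A Hausdorff topological ring and a monoid such that no Hausdorff ring topology on the monoid
ring induces the given topology. -/
theorem result : ∃ (R : Type) (_ : Ring R) (τ₀ : TopologicalSpace R) (_ : IsTopologicalRing R)
    (_ : T2Space R) (G : Type) (_ : Monoid G),
    ¬ ∃ τ : TopologicalSpace (MonoidAlgebra R G), @IsTopologicalRing (MonoidAlgebra R G) τ _ ∧
      @T2Space (MonoidAlgebra R G) τ ∧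
      TopologicalSpace.induced (fun r : R => (MonoidAlgebra.single 1 r : MonoidAlgebra R G)) τ
        = τ₀ := by
  refine ⟨SeparationQuotient Pool.Agent.H.MP_311bfa_al.P, inferInstance, inferInstance,
    inferInstance, inferInstance, Function.End ℕ, inferInstance, ?_⟩
  rintro ⟨τ, h1, h2, h3⟩
  exact Pool.Agent.H.MP_311bfa_al.main (continuous_iff_le_induced.2 h3.ge)

end Pool.Agent.Results.MP_311bfa_al.NoExtension
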